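import Pool.Agent.Y996.NL.Stm
import Pool.Agent.W405.NC.G2

/-!
# NL-U2: joining two chains at a circuit, and the upper bound
-/

set_option autoImplicit false

namespace Pool.Agent.Y614.NL

open H974 Finset Pool.Agent.W819.EN Pool.Agent.W819.NC Pool.Agent.W38.EN
open Pool.Agent.Y996.NL
open Pool.Agent.Y996.RD (EN)

theorem u2 : S_U2 := by
  classical
  intro G F v D K1 K2 p1 q1 p2 q2 hFG hD hp1 hq1 hp2 hq2 ch1 ch2
  obtain ⟨k, hk⟩ : ∃ k, k = sInf {k | Cir v (2 * D) k F} := ⟨_, rfl⟩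
  have hC : Cir v (2 * D) k F := by
    rw [hk]
    exact Nat.sInf_mem (s := {k | Cir v (2 * D) k F}) (Pool.Agent.W405.NC.cir_ex F v (2 * D))
  obtain ⟨⟨⟨Xa, _, ka, La⟩, ⟨Xb, _, kb, Lb⟩⟩, ⟨Xc, _, kc, Lc⟩, ⟨Xd, _, kd, Ld⟩⟩ := hC
  set X : Finset Edg := Xa ∪ Xb ∪ Xc ∪ Xd with hX
  have ta : Xa ⊆ X := Finset.subset_union_left.trans (Finset.subset_union_left.trans
    Finset.subset_union_left)
  have tb : Xb ⊆ X := Finset.subset_union_right.trans (Finset.subset_union_left.trans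
    Finset.subset_union_left)
  have tc : Xc ⊆ X := Finset.subset_union_right.trans Finset.subset_union_left
  have td : Xd ⊆ X := Finset.subset_union_right
  have hcard : X.card ≤ 4 * k := by
    have h1 := Finset.card_union_le (Xa ∪ Xb ∪ Xc) Xd
    have h2 := Finset.card_union_le (Xa ∪ Xb) Xc
    have h3 := Finset.card_union_le Xa Xb
    show (Xa ∪ Xb ∪ Xc ∪ Xd).card ≤ 4 * k
    omega
  set E : Finset Edg := F ∪ X with hE
  obtain ⟨z, hz⟩ := circ_v (v := v) (R1 := ((2 * D : ℕ) : ℤ)) (R2 := 2 * ((2 * D : ℕ) : ℤ))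
    (by omega) (by omega)
    (E := E) (La.mono (Finset.union_subset_union_right ta))
    (Lb.mono (Finset.union_subset_union_right tb)) (Lc.mono (Finset.union_subset_union_right tc))
    (Ld.mono (Finset.union_subset_union_right td))
  obtain ⟨w1, A1, B1, hw1, hA1, c1, _⟩ := touch2 (v := v) (R1 := ((2 * D : ℕ) : ℤ))
    (R := 2 * ((2 * D : ℕ) : ℤ)) (by omega) (by omega) hz (by push_cast; linarith)
    (by push_cast; linarith) ch1
  obtain ⟨w2, A2, B2, hw2, hA2, c2, _⟩ := touch2 (v := v) (R1 := ((2 * D : ℕ) : ℤ))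
    (R := 2 * ((2 * D : ℕ) : ℤ)) (by omega) (by omega) hz (by push_cast; linarith)
    (by push_cast; linarith) ch2
  have hreach : Reach (G ∪ ↑X) w1 w2 := by
    refine (hw1.symm.trans hw2).mono ?_
    rintro e ⟨he, _⟩
    rw [hE, Finset.coe_union] at he
    exact he.imp (fun h => hFG h) id
  have c3 := reach_chain X hreach
  have c4 := (c1.trans c3).trans (Ch_symm c2)
  refine c4.mono ?_
  show _ ≤ K1 + K2 + (2 + 8 * sInf {k | Cir v (2 * D) k F})
  rw [← hk]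
  omega

/-- change of the centre -/
theorem nmv_le {v w : Vtx} {D : ℕ} (h1 : |v.1 - w.1| ≤ D) (h2 : |v.2 - w.2| ≤ D) (p : ℤ × ℤ) :
    nmv v p ≤ nmv w p + 2 * D := by
  have e1 := abs_sub_le (p.1 - (v.1 + v.2)) (p.1 - (w.1 + w.2)) 0
  have e2 := abs_sub_le (p.2 - (v.1 - v.2)) (p.2 - (w.1 - w.2)) 0
  simp only [sub_zero] at e1 e2
  have e3 : |p.1 - (v.1 + v.2) - (p.1 - (w.1 + w.2))| + |p.2 - (v.1 - v.2) - (p.2 - (w.1 - w.2))|
      ≤ 2 * D := by
    rw [abs_le] at h1 h2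
    rcases abs_cases (p.1 - (v.1 + v.2) - (p.1 - (w.1 + w.2))) with ⟨a1, _⟩ | ⟨a1, _⟩ <;>
    rcases abs_cases (p.2 - (v.1 - v.2) - (p.2 - (w.1 - w.2))) with ⟨a2, _⟩ | ⟨a2, _⟩ <;>
      rw [a1, a2] <;> linarith [h1.1, h1.2, h2.1, h2.2]
  unfold nmv
  linarith

theorem up : S_U1 → S_U2 → S_UP := by
  intro hU1 hU2 G F P Q v w a b D hFG hP hQ hD ha hb hd1 hd2
  obtain ⟨x, hx, q1, hx1, hq1, c1⟩ := hU1 G F P v a (8 * D) hFG hP (by omega)
  obtain ⟨y, hy, q2, hy1, hq2, c2⟩ := hU1 G F Q w b (8 * D) hFG hQ (by omega)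
  have haZ : 2 * (a : ℤ) ≤ D := by exact_mod_cast ha
  have hbZ : 2 * (b : ℤ) ≤ D := by exact_mod_cast hb
  have hDZ : (1 : ℤ) ≤ D := by exact_mod_cast hD
  have h1 := nmv_le hd1 hd2 (fc y)
  have h2 := nmv_le (v := w) (w := v) (D := D) (by rw [abs_sub_comm]; exact hd1)
    (by rw [abs_sub_comm]; exact hd2) q2
  push_cast at hq1 hq2
  have c3 := hU2 G F v D _ _ (fc x) q1 (fc y) q2 hFG hD (by linarith) (by linarith)
    (by linarith) (by linarith) c1 c2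
  exact Nat.sInf_le ⟨x, hx, y, hy, c3⟩

end Pool.Agent.Y614.NL
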